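import Pool.Agent.Results.MP_fd8838_nt.ExceptionalCapture
import Pool.Agent.Q319.DR.Win2

/-!
# Möller's maps: all orbits starting near the multiples of almost every real number are captured by small exceptional numbers

The exceptional set `E(d, m, R)` is conjectured to be finite. We show that its SMALL elements capture all positive orbits
starting in windows around the multiples `k y`, `k ≤ N ^ θ`, of almost every real number `y` of size `N ^ (1 - θ)`, with
few exceptional `k`: windows of radius `log ^ A N` are captured by the elements `≤ log ^ B N`, and windows of radius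
`N ^ c` by the elements `≤ N ^ η`.

From Mathlib: `volume`: the Lebesgue measure; `^[n]`: iterates. The bound for the number of orbits which are not captured is
from the starting files (`ExceptionalCapture`), as well as the count of the elements of arbitrary sets of integers in
intervals at multiples of real numbers (`Pool.Agent.H438R2.DL`).
-/

set_option autoImplicit false

namespace Pool.Agent.Results.MP_fd8838_nt.CaptureAtRealMultiples

open Finset MeasureTheory Filter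

/-- The map `T(n) = n / d` if `d ∣ n` and `(m n - r_j) / d` if `n ≡ j mod d`, `1 ≤ j < d`; the points of a
`T`-orbit that are not divisible by `d` form the `H`-orbit. -/
def T (d m : ℕ) (r : ℕ → ℤ) (n : ℤ) : ℤ :=
  if (d : ℤ) ∣ n then n / d else (m * n - r (n % d).toNat) / d

/-- The exceptional set `E(d, m, R)`, in terms of `T`: the integers `e > 0` not divisible by `d` such that,
as long as the orbit of `e` stays positive, its terms not divisible by `d` (the terms of the `H`-orbit)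
are `≥ e`. -/
def E (d m : ℕ) (r : ℕ → ℤ) : Set ℤ :=
  {e : ℤ | 0 < e ∧ ¬ (d : ℤ) ∣ e ∧ ∀ k : ℕ, (∀ j ≤ k, 0 < (T d m r)^[j] e) →
    ¬ (d : ℤ) ∣ (T d m r)^[k] e → e ≤ (T d m r)^[k] e}

/-- The orbit of `x` enters `[-Y, Y]` and, if it stays positive, it contains an element `≤ Y` of the exceptional set. -/
def Captured (d m : ℕ) (r : ℕ → ℤ) (Y : ℝ) (x : ℤ) : Prop :=
  (∃ k : ℕ, |(((T d m r)^[k] x : ℤ) : ℝ)| ≤ Y) ∧
    ((∀ k : ℕ, 0 < (T d m r)^[k] x) → ∃ k : ℕ, (T d m r)^[k] x ∈ E d m r ∧ (((T d m r)^[k] x : ℤ) : ℝ) ≤ Y)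

open Classical in
/-- The number of the `k` with `1 ≤ k ≤ K` such that the orbit of some integer `x`, whose absolute value is at a distance
of at most `w` from `k y`, is not captured by the elements `≤ Y`. -/
noncomputable def exceptions (d m : ℕ) (r : ℕ → ℤ) (K y w Y : ℝ) : ℕ :=
  ((Icc 1 ⌊K⌋₊).filter (fun k : ℕ => ∃ x : ℤ, |(|(x : ℝ)|) - k * y| ≤ w ∧ ¬ Captured d m r Y x)).card

variable {d m : ℕ} {r : ℕ → ℤ}

/-- the number of the orbits which are not captured -/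
lemma cnt {c C : ℝ} (h : ∀ X y : ℝ, 1 ≤ X → 1 ≤ y →
        (Set.ncard {n : ℤ | 1 ≤ n ∧ (n : ℝ) ≤ X ∧ (∀ k : ℕ, 0 < (T d m r)^[k] n) ∧
          ∀ k : ℕ, (T d m r)^[k] n ∈ E d m r → y < (((T d m r)^[k] n : ℤ) : ℝ)} : ℝ) ≤ C * X / y ^ c ∧
        (Set.ncard {x : ℤ | |(x : ℝ)| ≤ X ∧ ∀ k : ℕ, y < |(((T d m r)^[k] x : ℤ) : ℝ)|} : ℝ) ≤ C * X / y ^ c)
    (X y : ℝ) (hX : 1 ≤ X) (hy : 1 ≤ y) (F : Finset ℤ) (hF : ∀ x ∈ F, |(x : ℝ)| ≤ X ∧ ¬ Captured d m r y x) :
    (F.card : ℝ) ≤ 2 * C * X / y ^ c := by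
  classical
  obtain ⟨h1, h2⟩ := h X y hX hy
  have hfin : ∀ P : ℤ → Prop, {x : ℤ | |(x : ℝ)| ≤ X ∧ P x}.Finite := by
    intro P
    refine (Set.finite_Icc (-⌊X⌋) ⌊X⌋).subset fun x hx => ?_
    have h3 := abs_le.1 hx.1
    refine ⟨?_, Int.le_floor.2 h3.2⟩
    have : -x ≤ ⌊X⌋ := Int.le_floor.2 (by push_cast; linarith)
    linarith
  have hsplit : F ⊆ F.filter (fun x => (∀ k : ℕ, 0 < (T d m r)^[k] x) ∧
      ∀ k : ℕ, (T d m r)^[k] x ∈ E d m r → y < (((T d m r)^[k] x : ℤ) : ℝ)) ∪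
      F.filter (fun x => ∀ k : ℕ, y < |(((T d m r)^[k] x : ℤ) : ℝ)|) := by
    intro x hx
    rw [mem_union, mem_filter, mem_filter]
    by_contra hcon
    push Not at hcon
    obtain ⟨h3, h4⟩ := hcon
    refine (hF x hx).2 ⟨?_, fun hpos => ?_⟩
    · obtain ⟨k, hk⟩ := h4 hx
      exact ⟨k, hk⟩
    · obtain ⟨k, hk1, hk2⟩ := h3 hx hpos
      exact ⟨k, hk1, hk2⟩
  have hA : ((F.filter (fun x => (∀ k : ℕ, 0 < (T d m r)^[k] x) ∧
      ∀ k : ℕ, (T d m r)^[k] x ∈ E d m r → y < (((T d m r)^[k] x : ℤ) : ℝ))).card : ℝ) ≤ C * X / y ^ c := by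
    refine le_trans ?_ h1
    rw [← Set.ncard_coe_finset]
    apply Nat.cast_le.2
    refine Set.ncard_le_ncard (fun x hx => ?_) ((hfin (fun _ => True)).subset fun x hx => ?_)
    · rw [coe_filter] at hx
      obtain ⟨hx1, hx2, hx3⟩ := hx
      have h5 : (0 : ℤ) < x := by simpa using hx2 0
      exact ⟨h5, (le_abs_self _).trans (hF x hx1).1, hx2, hx3⟩
    · obtain ⟨hx1, hx2, -⟩ := hx
      refine ⟨?_, trivial⟩
      rw [abs_of_nonneg]
      · exact hx2
      · exact_mod_cast (by linarith : (0 : ℤ) ≤ x)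
  have hB : ((F.filter (fun x => ∀ k : ℕ, y < |(((T d m r)^[k] x : ℤ) : ℝ)|)).card : ℝ) ≤ C * X / y ^ c := by
    refine le_trans ?_ h2
    rw [← Set.ncard_coe_finset]
    apply Nat.cast_le.2
    refine Set.ncard_le_ncard (fun x hx => ?_) (hfin _)
    rw [coe_filter] at hx
    exact ⟨(hF x hx.1).1, hx.2⟩
  calc (F.card : ℝ) ≤ _ := Nat.cast_le.2 ((card_le_card hsplit).trans (card_union_le _ _))
    _ ≤ C * X / y ^ c + C * X / y ^ c := by
        push_cast
        exact add_le_add hA hB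
    _ = 2 * C * X / y ^ c := by ring

/-- Let `gcd(m, d) = 1` and `2 ≤ m ≤ d ^ (d / (d - 1))`, and let `0 < θ < 1`.
1. There is `κ > 0` such that for all admissible `R` and all `A`, `U` there is `B` such that for all large `N` there is
   a set `S` of real numbers of measure at most `N ^ (1 - θ - κ)` with the following property. Let `y ∉ S` be a real
   number with `N ^ (1 - θ) ≤ y ≤ 2 N ^ (1 - θ)`. For all `k ≤ N ^ θ`, with at most `N ^ θ / log ^ U N` exceptions, the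
   orbits of ALL integers `x` with `||x| - k y| ≤ log ^ A N` enter `[-log ^ B N, log ^ B N]` and, if they stay positive,
   contain an element `≤ log ^ B N` of the exceptional set `E(d, m, R)`.
2. Let `η > 0`. For all admissible `R` there is `c > 0` such that the same holds with `N ^ (1 - θ - c)` for the measure,
   `N ^ (θ - c)` exceptional `k`, the windows `||x| - k y| ≤ N ^ c` and the bound `N ^ η` in place of `log ^ B N`. -/
theorem result (d m : ℕ) (hd : 2 ≤ d) (hm : 2 ≤ m) (hc : Nat.Coprime m d)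
    (hle : (m : ℝ) ≤ (d : ℝ) ^ ((d : ℝ) / ((d : ℝ) - 1))) (θ : ℝ) (hθ : 0 < θ) (hθ1 : θ < 1) :
    (∃ κ : ℝ, 0 < κ ∧ ∀ r : ℕ → ℤ, (∀ j : ℕ, 1 ≤ j → j < d → r j ≡ m * j [ZMOD d]) →
      ∀ A U : ℕ, ∃ B N₀ : ℕ, ∀ N : ℕ, N₀ ≤ N →
        ∃ S : Set ℝ, MeasurableSet S ∧ volume S ≤ ENNReal.ofReal ((N : ℝ) ^ (1 - θ - κ)) ∧
          ∀ y : ℝ, (N : ℝ) ^ (1 - θ) ≤ y → y ≤ 2 * (N : ℝ) ^ (1 - θ) → y ∉ S →
            (exceptions d m r ((N : ℝ) ^ θ) y (Real.log N ^ A) (Real.log N ^ B) : ℝ) ≤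
              (N : ℝ) ^ θ / Real.log N ^ U) ∧
    (∀ η : ℝ, 0 < η → ∀ r : ℕ → ℤ, (∀ j : ℕ, 1 ≤ j → j < d → r j ≡ m * j [ZMOD d]) →
      ∃ c : ℝ, 0 < c ∧ ∃ N₀ : ℕ, ∀ N : ℕ, N₀ ≤ N →
        ∃ S : Set ℝ, MeasurableSet S ∧ volume S ≤ ENNReal.ofReal ((N : ℝ) ^ (1 - θ - c)) ∧
          ∀ y : ℝ, (N : ℝ) ^ (1 - θ) ≤ y → y ≤ 2 * (N : ℝ) ^ (1 - θ) → y ∉ S →
            (exceptions d m r ((N : ℝ) ^ θ) y ((N : ℝ) ^ c) ((N : ℝ) ^ η) : ℝ) ≤ (N : ℝ) ^ (θ - c)) := by
  classical
  obtain ⟨c, hc0, hE⟩ := ExceptionalCapture.result d m hd hm hc hle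
  constructor
  · obtain ⟨κ, hκ, h⟩ := Pool.Agent.Q319.DR.win_log θ hθ hθ1
    refine ⟨κ, hκ, fun r hr A U => ?_⟩
    obtain ⟨C, hC, hcount⟩ := hE r hr
    obtain ⟨B, hB⟩ := exists_nat_ge (((U + A + 3 : ℕ) : ℝ) / c)
    rw [div_le_iff₀ hc0] at hB
    obtain ⟨N₁, h1⟩ := (tendsto_natCast_atTop_atTop.eventually
      (Pool.Agent.Q319.DR.ev_log (8 * C + 1))).exists_forall_of_atTop
    obtain ⟨N₀, h0⟩ := h A U (fun N x => ¬ Captured d m r (Real.log N ^ B) x) (N₁ + 1) (fun N hN F hF => by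
      have hL1 := h1 N (by omega)
      have hN1 : (1 : ℝ) ≤ N := by exact_mod_cast (by omega : 1 ≤ N)
      have hN0 : (0 : ℝ) < N := by linarith
      have hL2 : 1 ≤ Real.log N := by linarith
      have hL0 : 0 < Real.log N := by linarith
      refine (cnt hcount (4 * N) (Real.log N ^ B) (by linarith) (one_le_pow₀ hL2) F hF).trans ?_
      have h5 : Real.log N ^ (U + A + 3) ≤ (Real.log N ^ B) ^ c := by
        rw [← Real.rpow_natCast (Real.log N) B, ← Real.rpow_mul hL0.le, ← Real.rpow_natCast]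
        exact Real.rpow_le_rpow_of_exponent_le hL2 hB
      calc 2 * C * (4 * N) / (Real.log N ^ B) ^ c ≤ 2 * C * (4 * N) / Real.log N ^ (U + A + 3) := by
            gcongr
        _ = 8 * C * (N / Real.log N ^ (U + A + 3)) := by ring
        _ ≤ Real.log N * (N / Real.log N ^ (U + A + 3)) := by
            apply mul_le_mul_of_nonneg_right _ (by positivity)
            linarith
        _ = N / Real.log N ^ (U + A + 2) := by
            rw [show U + A + 3 = (U + A + 2) + 1 by ring, pow_succ]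
            field_simp)
    exact ⟨B, N₀, h0⟩
  · intro η hη r hr
    obtain ⟨C, hC, hcount⟩ := hE r hr
    obtain ⟨c', hc', h⟩ := Pool.Agent.Q319.DR.win_mult θ hθ hθ1 (η * c) (by positivity)
      (fun N x => ¬ Captured d m r ((N : ℝ) ^ η) x) (8 * C) 1 (fun N hN F hF => by
        have hN1 : (1 : ℝ) ≤ N := by exact_mod_cast hN
        have hN0 : (0 : ℝ) < N := by linarith
        refine (cnt hcount (4 * N) ((N : ℝ) ^ η) (by linarith) (Real.one_le_rpow hN1 hη.le) F hF).trans (le_of_eq ?_)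
        rw [← Real.rpow_mul hN0.le, Real.rpow_sub hN0, Real.rpow_one]
        ring)
    exact ⟨c', hc', h⟩

end Pool.Agent.Results.MP_fd8838_nt.CaptureAtRealMultiples
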