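import Mathlib
import Pool.Agent.H319R2.GMoller
import Pool.Agent.H53.MC.Lfl

/-!
# Möller's maps: the shapes and the lengths of cycles

Let `gcd(m, d) = 1`, `2 ≤ m ≤ d^(d/(d-1))`, let `R` be admissible, and let `T` be the map whose orbits contain
the orbits of the generalised Hasse–Syracuse map `H` as the subsequences of the terms not divisible by `d`.

1. A cycle of `T` of length `p` with `o` terms not divisible by `d` and all terms of absolute value at least
`N` has `|p log d - o log m| ≤ C N^(-κ)`, uniformly in the length.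
2. Very few integers are lengths of cycles of `T` or of `H`: at most `C P exp(-c √(log P))` in every interval
of length `P`.
-/

set_option autoImplicit false

namespace Pool.Agent.Results.MP_fd8838_nt.CycleShapes

open Finset Filter Pool.Agent.H319R2 Pool.Agent.H319R2.G

/-- the map `T(n) = n / d` if `d ∣ n` and `(m n - r_j) / d` if `n ≡ j mod d`, `1 ≤ j < d`; the terms of a
`T`-orbit which are not divisible by `d` form the orbit of the generalised Hasse–Syracuse map `H` -/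
def T (d m : ℕ) (r : ℕ → ℤ) (n : ℤ) : ℤ :=
  if (d : ℤ) ∣ n then n / d else (m * n - r (n % d).toNat) / d

/-- the number of terms not divisible by `d` among the first `k` terms `x, T x, ..., T^(k-1) x` of the
`T`-orbit of `x`; for a cycle of `T` of length `k` containing `x` this is the length of the
corresponding cycle of `H` -/
def reduced (d m : ℕ) (r : ℕ → ℤ) (k : ℕ) (x : ℤ) : ℕ :=
  ((range k).filter fun j => ¬ (d : ℤ) ∣ (T d m r)^[j] x).card

/-- the lengths of the cycles of `T` on the integers -/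
def lengths (d m : ℕ) (r : ℕ → ℤ) : Set ℕ :=
  {p | 0 < p ∧ ∃ x : ℤ, Function.minimalPeriod (T d m r) x = p}

/-- the lengths of the cycles of `H`: the numbers of terms not divisible by `d` of the cycles of `T` -/
def reducedLengths (d m : ℕ) (r : ℕ → ℤ) : Set ℕ :=
  {o | ∃ x : ℤ, 0 < Function.minimalPeriod (T d m r) x ∧
    reduced d m r (Function.minimalPeriod (T d m r) x) x = o}

theorem T_eq (d m : ℕ) (r : ℕ → ℤ) : T d m r = Moller.T d m r := rfl

theorem reduced_eq (d m : ℕ) (r : ℕ → ℤ) (k : ℕ) (x : ℤ) :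
    reduced d m r k x = Moller.od d m r k x := rfl

/-- the number of terms not divisible by `d` is the same for all elements of a cycle -/
theorem reduced_iter {d m : ℕ} {r : ℕ → ℤ} {x : ℤ} {p : ℕ}
    (hx : (T d m r)^[p] x = x) (j : ℕ) :
    reduced d m r p ((T d m r)^[j] x) = reduced d m r p x := by
  classical
  induction j with
  | zero => rfl
  | succ j ih =>
    rw [← ih, Function.iterate_succ_apply']
    set y := (T d m r)^[j] x with hy
    have hpery : (T d m r)^[p] y = y := by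
      rw [hy, ← Function.iterate_add_apply, add_comm, Function.iterate_add_apply, hx]
    unfold reduced
    have h1 : ∀ z : ℤ, ((range p).filter fun j => ¬ (d : ℤ) ∣ (T d m r)^[j] z).card =
        ∑ j ∈ range p, if (d : ℤ) ∣ (T d m r)^[j] z then 0 else 1 := by
      intro z
      rw [card_filter]
      apply sum_congr rfl
      intro j _
      by_cases h : (d : ℤ) ∣ (T d m r)^[j] z <;> simp [h]
    rw [h1, h1]
    rcases Nat.eq_zero_or_pos p with rfl | hp
    · simp
    obtain ⟨q, rfl⟩ : ∃ q, p = q + 1 := ⟨p - 1, by omega⟩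
    rw [sum_range_succ, sum_range_succ']
    have h2 : (T d m r)^[q] (T d m r y) = y := by
      rw [← Function.iterate_succ_apply]; exact hpery
    rw [h2]
    rfl

/-- the defect of the cycle of `x` -/
noncomputable def defect (d m : ℕ) (r : ℕ → ℤ) (x : ℤ) : ℝ :=
  |(Function.minimalPeriod (T d m r) x : ℝ) * Real.log d -
    reduced d m r (Function.minimalPeriod (T d m r) x) x * Real.log m|

theorem minimalPeriod_iter' {d m : ℕ} {r : ℕ → ℤ} {x : ℤ}
    (hx : 0 < Function.minimalPeriod (T d m r) x) (j : ℕ) :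
    Function.minimalPeriod (T d m r) ((T d m r)^[j] x) = Function.minimalPeriod (T d m r) x :=
  Function.minimalPeriod_apply_iterate (Function.minimalPeriod_pos_iff_mem_periodicPts.1 hx) j

theorem reduced_iter' {d m : ℕ} {r : ℕ → ℤ} {x : ℤ} (j : ℕ) :
    reduced d m r (Function.minimalPeriod (T d m r) x) ((T d m r)^[j] x) =
      reduced d m r (Function.minimalPeriod (T d m r) x) x :=
  reduced_iter (Function.iterate_minimalPeriod) j

theorem defect_iter {d m : ℕ} {r : ℕ → ℤ} {x : ℤ}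
    (hx : 0 < Function.minimalPeriod (T d m r) x) (j : ℕ) :
    defect d m r ((T d m r)^[j] x) = defect d m r x := by
  unfold defect
  rw [minimalPeriod_iter' hx j, reduced_iter' j]

/-- shapes of cycles -/
theorem shape (d m : ℕ) (hd : 2 ≤ d) (hm : 1 ≤ m) (hc : Nat.Coprime m d) (hle : m ^ (d - 1) ≤ d ^ d) :
    ∃ κ : ℝ, 0 < κ ∧
      ∀ r : ℕ → ℤ, (∀ j : ℕ, 1 ≤ j → j < d → (d : ℤ) ∣ m * j - r j) →
      ∃ C : ℝ, 0 < C ∧ ∀ x : ℤ, 0 < Function.minimalPeriod (T d m r) x → ∀ N : ℝ, 1 ≤ N →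
        (∀ j, N ≤ |(((T d m r)^[j] x : ℤ) : ℝ)|) → defect d m r x ≤ C * N ^ (-κ) := by
  classical
  have hr0 : ∀ j : ℕ, 1 ≤ j → j < d → (d : ℤ) ∣ m * j - (fun j : ℕ => (m : ℤ) * j) j := by
    intro j _ _; simp
  obtain ⟨s, η, hs, hη, hη1, hφ⟩ :=
    (Moller.gc d m (fun j : ℕ => (m : ℤ) * j) hd hc hr0).exists_exp
      (Moller.gc_contr hd hc hr0 hm hle)
  refine ⟨1 - η, by linarith, ?_⟩
  intro r hr
  set g := Moller.gc d m r hd hc hr with hg
  have hgT : g.T = T d m r := Moller.gc_T hd hc hr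
  have hlg : ∀ (k : ℕ) (n : ℤ), g.lg k n = Moller.od d m r k n * Real.log m - k * Real.log d :=
    fun k n => Moller.gc_lg hd hc hr hm k n
  obtain ⟨C, hC0, hC⟩ := g.cycle_rigid s η hs hη hη1 hφ
  -- small cycles
  set B : ℝ := 2 * g.R + 1 with hB
  have hB1 : 1 ≤ B := by have := g.R_nonneg; rw [hB]; linarith
  have hB0 : 0 < B := by linarith
  obtain ⟨b, hb⟩ := exists_nat_ge B
  set M : ℝ := ∑ y ∈ Finset.Icc (-(b : ℤ)) b, defect d m r y with hM
  have hM0 : 0 ≤ M := sum_nonneg fun _ _ => abs_nonneg _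
  refine ⟨(C + M) * B ^ (1 - η), by positivity, ?_⟩
  intro x hx N hN hmin
  have hN0 : 0 < N := by linarith
  have hdef : defect d m r x = |g.lg (Function.minimalPeriod g.T x) x| := by
    rw [hlg, hgT, abs_sub_comm]; rfl
  have hBge : (1 : ℝ) ≤ B ^ (1 - η) := Real.one_le_rpow hB1 (by linarith)
  have hNpos : 0 < N ^ (-(1 - η)) := Real.rpow_pos_of_pos hN0 _
  have key : ∀ N' : ℝ, B ≤ N' → (∀ j, N' ≤ |(((T d m r)^[j] x : ℤ) : ℝ)|) →
      defect d m r x ≤ C * N' ^ (-(1 - η)) := by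
    intro N' hN' hmin'
    rw [hdef]
    have h := hC x _ rfl (by rw [hgT]; exact hx) N' hN' (by rw [hgT]; exact hmin')
    rw [show -(1 - η) = η - 1 by ring]
    exact h
  rcases le_or_gt B N with hBN | hBN
  · refine (key N hBN hmin).trans ?_
    apply mul_le_mul_of_nonneg_right _ hNpos.le
    nlinarith
  · -- `N < B`
    have hscale : 1 ≤ B ^ (1 - η) * N ^ (-(1 - η)) := by
      rw [Real.rpow_neg hN0.le, ← div_eq_mul_inv, le_div_iff₀ (Real.rpow_pos_of_pos hN0 _), one_mul]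
      exact Real.rpow_le_rpow hN0.le hBN.le (by linarith)
    have hfin : defect d m r x ≤ C + M := by
      by_cases hall : ∀ j, B ≤ |(((T d m r)^[j] x : ℤ) : ℝ)|
      · have h1 := key B le_rfl hall
        have h2 : B ^ (-(1 - η)) ≤ 1 := Real.rpow_le_one_of_one_le_of_nonpos hB1 (by linarith)
        nlinarith
      · push Not at hall
        obtain ⟨j, hj⟩ := hall
        rw [← defect_iter hx j]
        have hmem : (T d m r)^[j] x ∈ Finset.Icc (-(b : ℤ)) b := by
          have h2 : |(T d m r)^[j] x| < (b : ℤ) := by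
            have h3 : |(((T d m r)^[j] x : ℤ) : ℝ)| < b := hj.trans_le hb
            exact_mod_cast h3
          rw [abs_lt] at h2
          rw [mem_Icc]
          constructor <;> linarith
        have h4 : defect d m r ((T d m r)^[j] x) ≤ M :=
          single_le_sum (f := fun y => defect d m r y) (fun _ _ => abs_nonneg _) hmem
        linarith
    calc defect d m r x ≤ (C + M) * 1 := by linarith
      _ ≤ (C + M) * (B ^ (1 - η) * N ^ (-(1 - η))) := by gcongr
      _ = _ := by ring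

/-- `√P ≤ exp (c² / 2) P exp (-c √(log P))` -/
theorem sqrt_le (c : ℝ) (P : ℕ) (hP : 1 ≤ P) :
    Real.sqrt P ≤ Real.exp (c ^ 2 / 2) * (P * Real.exp (-(c * Real.sqrt (Real.log P)))) := by
  have hPr : (1 : ℝ) ≤ P := by exact_mod_cast hP
  have hP0 : (0 : ℝ) < P := by linarith
  set S := Real.sqrt (Real.log P) with hS
  have hSsq : S ^ 2 = Real.log P := Real.sq_sqrt (Real.log_nonneg hPr)
  have h1 : Real.sqrt P = Real.exp (Real.log P / 2) := by
    rw [Real.sqrt_eq_rpow, Real.rpow_def_of_pos hP0]; ring_nf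
  have h2 : Real.exp (c ^ 2 / 2) * (P * Real.exp (-(c * S))) =
      Real.exp (c ^ 2 / 2 + (Real.log P + -(c * S))) := by
    rw [Real.exp_add, Real.exp_add, Real.exp_log hP0]
  rw [h1, h2]
  apply Real.exp_le_exp.2
  nlinarith [sq_nonneg (S - c)]

/-- very few numbers of the kind `f x`, `x` periodic, if `f` is constant on cycles and `f x log d'` is close to
a multiple of `log m'` -/
theorem few (d m : ℕ) (r : ℕ → ℤ) (d' m' : ℕ) (κ C c : ℝ) (hC : 0 < C)
    (hcount : ∀ A : ℝ, 0 < A → ∃ C : ℝ, 0 < C ∧ ∀ Q P : ℕ, 1 ≤ P → ∀ F : Finset ℕ,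
      (∀ p ∈ F, (Q < p ∧ p ≤ Q + P) ∧
        ∃ o : ℤ, |(p : ℝ) * Real.log d' - o * Real.log m'| ≤ A * (P : ℝ) ^ (-(κ / 2))) →
      (F.card : ℝ) ≤ C * P * Real.exp (-(c * Real.sqrt (Real.log P))))
    (f : ℤ → ℕ) (hf : ∀ x : ℤ, 0 < Function.minimalPeriod (T d m r) x → ∀ j : ℕ,
      f ((T d m r)^[j] x) = f x)
    (hshape : ∀ x : ℤ, 0 < Function.minimalPeriod (T d m r) x → ∀ N : ℝ, 1 ≤ N →
        (∀ j, N ≤ |(((T d m r)^[j] x : ℤ) : ℝ)|) →
        ∃ o : ℤ, |(f x : ℝ) * Real.log d' - o * Real.log m'| ≤ C * N ^ (-κ)) :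
    ∃ C' : ℝ, 0 < C' ∧ ∀ Q P : ℕ, 1 ≤ P →
      (Set.ncard {o : ℕ | (∃ x : ℤ, 0 < Function.minimalPeriod (T d m r) x ∧ f x = o) ∧
        Q < o ∧ o ≤ Q + P} : ℝ) ≤ C' * P * Real.exp (-(c * Real.sqrt (Real.log P))) := by
  classical
  obtain ⟨C₁, hC₁, hcnt⟩ := hcount C hC
  refine ⟨C₁ + 5 * Real.exp (c ^ 2 / 2), by positivity, ?_⟩
  intro Q P hP
  have hPr : (1 : ℝ) ≤ P := by exact_mod_cast hP
  have hP0 : (0 : ℝ) < P := by linarith
  set N : ℝ := Real.sqrt P with hN
  have hN1 : 1 ≤ N := by rw [hN]; exact Real.one_le_sqrt.2 hPr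
  set b : ℕ := ⌈N⌉₊ with hb
  have hbN : N ≤ b := Nat.le_ceil _
  have hbN' : (b : ℝ) < N + 1 := Nat.ceil_lt_add_one (by linarith)
  set small : Finset ℤ := Finset.Icc (-(b : ℤ)) b with hsmall
  have hsc : small.card = 2 * b + 1 := by rw [hsmall, Int.card_Icc]; omega
  set F : Finset ℕ := (Finset.Ioc Q (Q + P)).filter
    (fun o => ∃ x : ℤ, 0 < Function.minimalPeriod (T d m r) x ∧ f x = o) with hF
  have hset : {o : ℕ | (∃ x : ℤ, 0 < Function.minimalPeriod (T d m r) x ∧ f x = o) ∧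
        Q < o ∧ o ≤ Q + P} = (F : Set ℕ) := by
    ext o
    simp only [hF, coe_filter, mem_Ioc, Set.mem_setOf_eq]
    tauto
  rw [hset, Set.ncard_coe_finset]
  set F1 := F \ small.image f with hF1
  have h1 : (F1.card : ℝ) ≤ C₁ * P * Real.exp (-(c * Real.sqrt (Real.log P))) := by
    apply hcnt Q P hP
    intro o ho
    rw [hF1, Finset.mem_sdiff, hF, Finset.mem_filter, Finset.mem_Ioc] at ho
    obtain ⟨⟨ho1, x, hx, hfx⟩, ho2⟩ := ho
    refine ⟨ho1, ?_⟩
    have hmin : ∀ j, N ≤ |(((T d m r)^[j] x : ℤ) : ℝ)| := by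
      intro j
      by_contra hcon
      apply ho2
      rw [mem_image]
      refine ⟨(T d m r)^[j] x, ?_, by rw [hf x hx j, hfx]⟩
      have h3 : |(((T d m r)^[j] x : ℤ) : ℝ)| < b := (not_le.1 hcon).trans_le hbN
      have h2 : |(T d m r)^[j] x| < (b : ℤ) := by exact_mod_cast h3
      rw [abs_lt] at h2
      rw [hsmall, mem_Icc]
      constructor <;> linarith
    obtain ⟨p, hp⟩ := hshape x hx N hN1 hmin
    refine ⟨p, ?_⟩
    rw [← hfx]
    refine hp.trans (le_of_eq ?_)
    rw [hN, Real.sqrt_eq_rpow, ← Real.rpow_mul hP0.le]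
    congr 2
    ring
  have h2 : ((F ∩ small.image f).card : ℝ) ≤ 5 * Real.sqrt P := by
    have h3 : (F ∩ small.image f).card ≤ 2 * b + 1 := by
      refine (card_le_card inter_subset_right).trans ?_
      rw [← hsc]; exact card_image_le
    have h4 : ((F ∩ small.image f).card : ℝ) ≤ 2 * b + 1 := by exact_mod_cast h3
    rw [← hN]
    linarith
  have h3 : (F.card : ℝ) = F1.card + (F ∩ small.image f).card := by
    rw [hF1, ← Nat.cast_add, card_sdiff_add_card_inter]
  have h4 := sqrt_le c P hP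
  rw [h3]
  have h5 : 5 * Real.sqrt P ≤
      5 * Real.exp (c ^ 2 / 2) * P * Real.exp (-(c * Real.sqrt (Real.log P))) := by
    calc 5 * Real.sqrt P ≤ 5 * (Real.exp (c ^ 2 / 2) * (P * Real.exp (-(c * Real.sqrt (Real.log P))))) := by
          linarith
      _ = _ := by ring
  calc (F1.card : ℝ) + (F ∩ small.image f).card
      ≤ C₁ * P * Real.exp (-(c * Real.sqrt (Real.log P))) +
        5 * Real.exp (c ^ 2 / 2) * P * Real.exp (-(c * Real.sqrt (Real.log P))) := by linarith
    _ = _ := by ring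

/-- Let `gcd(m, d) = 1` and `2 ≤ m ≤ d^(d/(d-1))`. There are `κ > 0` and `c > 0` depending only on `d` and `m`
such that for every admissible `R` (that is, `r_j ≡ m j mod d` for `1 ≤ j < d`) there is `C` with:

1. If `x` is a periodic point of `T` of exact period `p` whose cycle has `o` terms not divisible by `d`, and
if `|y| ≥ N ≥ 1` for all `y` in the cycle, then `|p log d - o log m| ≤ C N^(-κ)`.
2. For all `Q ≥ 0` and `P ≥ 1` at most `C P exp(-c √(log P))` of the numbers `Q + 1, ..., Q + P` are lengths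
of cycles of `T` on the integers.
3. For all `Q ≥ 0` and `P ≥ 1` at most `C P exp(-c √(log P))` of the numbers `Q + 1, ..., Q + P` are lengths
of cycles of `H` on the integers, that is, numbers of terms not divisible by `d` of cycles of `T`. -/
theorem result (d m : ℕ) (hd : 2 ≤ d) (hm : 2 ≤ m) (hc : Nat.Coprime m d)
    (hle : (m : ℝ) ≤ (d : ℝ) ^ ((d : ℝ) / ((d : ℝ) - 1))) :
    ∃ κ c : ℝ, 0 < κ ∧ 0 < c ∧
      ∀ r : ℕ → ℤ, (∀ j : ℕ, 1 ≤ j → j < d → r j ≡ m * j [ZMOD d]) →
      ∃ C : ℝ, 0 < C ∧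
        (∀ (x : ℤ) (p : ℕ), 0 < p → Function.minimalPeriod (T d m r) x = p → ∀ N : ℝ, 1 ≤ N →
          (∀ j : ℕ, N ≤ |(((T d m r)^[j] x : ℤ) : ℝ)|) →
          |(p : ℝ) * Real.log d - reduced d m r p x * Real.log m| ≤ C * N ^ (-κ)) ∧
        (∀ Q P : ℕ, 1 ≤ P →
          (Set.ncard {p : ℕ | p ∈ lengths d m r ∧ Q < p ∧ p ≤ Q + P} : ℝ) ≤
            C * P * Real.exp (-(c * Real.sqrt (Real.log P)))) ∧
        (∀ Q P : ℕ, 1 ≤ P →
          (Set.ncard {o : ℕ | o ∈ reducedLengths d m r ∧ Q < o ∧ o ≤ Q + P} : ℝ) ≤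
            C * P * Real.exp (-(c * Real.sqrt (Real.log P)))) := by
  have hd1 : (0 : ℝ) < (d : ℝ) - 1 := by
    have : (2 : ℝ) ≤ d := by exact_mod_cast hd
    linarith
  have hd0 : (0 : ℝ) ≤ d := Nat.cast_nonneg d
  have hle' : m ^ (d - 1) ≤ d ^ d := by
    have h1 : ((m : ℝ)) ^ ((d : ℝ) - 1) ≤ (d : ℝ) ^ (d : ℝ) := by
      have h2 := Real.rpow_le_rpow (Nat.cast_nonneg m) hle hd1.le
      rw [← Real.rpow_mul hd0] at h2
      have h3 : (d : ℝ) / ((d : ℝ) - 1) * ((d : ℝ) - 1) = d := by field_simp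
      rwa [h3] at h2
    have h4 : ((d : ℝ) - 1) = ((d - 1 : ℕ) : ℝ) := by
      rw [Nat.cast_sub (by omega)]; simp
    rw [h4, Real.rpow_natCast, Real.rpow_natCast] at h1
    exact_mod_cast h1
  obtain ⟨κ, hκ, hshape⟩ := shape d m hd (by omega) hc hle'
  obtain ⟨c₁, hc₁, hcnt₁⟩ := Pool.Agent.H53.MC.count d m hd hm hc (κ / 2) (by positivity)
  obtain ⟨c₂, hc₂, hcnt₂⟩ := Pool.Agent.H53.MC.count m d hm hd hc.symm (κ / 2) (by positivity)
  refine ⟨κ, min c₁ c₂, hκ, lt_min hc₁ hc₂, ?_⟩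
  intro r hr
  have hr' : ∀ j : ℕ, 1 ≤ j → j < d → (d : ℤ) ∣ m * j - r j := fun j h1 h2 =>
    (hr j h1 h2).dvd
  obtain ⟨C, hC, hsh⟩ := hshape r hr'
  obtain ⟨C₁, hC₁, h₁⟩ := few d m r d m κ C c₁ hC hcnt₁
    (fun x => Function.minimalPeriod (T d m r) x) (fun x hx j => minimalPeriod_iter' hx j)
    (fun x hx N hN hmin => ⟨(reduced d m r (Function.minimalPeriod (T d m r) x) x : ℕ), by
      have := hsh x hx N hN hmin
      unfold defect at this
      rw [Int.cast_natCast]
      exact this⟩)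
  obtain ⟨C₂, hC₂, h₂⟩ := few d m r m d κ C c₂ hC hcnt₂
    (fun x => reduced d m r (Function.minimalPeriod (T d m r) x) x)
    (fun x hx j => by simp only [minimalPeriod_iter' hx j, reduced_iter' j])
    (fun x hx N hN hmin => ⟨(Function.minimalPeriod (T d m r) x : ℕ), by
      have := hsh x hx N hN hmin
      unfold defect at this
      rw [Int.cast_natCast, abs_sub_comm]
      exact this⟩)
  have hweak : ∀ (c' C' : ℝ), 0 < C' → min c₁ c₂ ≤ c' → C' ≤ C + C₁ + C₂ → ∀ P : ℕ,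
      C' * P * Real.exp (-(c' * Real.sqrt (Real.log P))) ≤
        (C + C₁ + C₂) * P * Real.exp (-(min c₁ c₂ * Real.sqrt (Real.log P))) := by
    intro c' C' hC' hcc hCC P
    have h3 : Real.exp (-(c' * Real.sqrt (Real.log P))) ≤
        Real.exp (-(min c₁ c₂ * Real.sqrt (Real.log P))) := by
      apply Real.exp_le_exp.2
      have := mul_le_mul_of_nonneg_right hcc (Real.sqrt_nonneg (Real.log P))
      linarith
    gcongr
  refine ⟨C + C₁ + C₂, by positivity, ?_, ?_, ?_⟩
  · intro x p hp hx N hN hmin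
    subst hx
    have h3 := hsh x hp N hN hmin
    have h4 : 0 ≤ N ^ (-κ) := Real.rpow_nonneg (by linarith) _
    refine h3.trans ?_
    apply mul_le_mul_of_nonneg_right _ h4
    linarith
  · intro Q P hP
    refine le_trans (le_of_eq ?_) ((h₁ Q P hP).trans
      (hweak c₁ C₁ hC₁ (min_le_left _ _) (by linarith) P))
    congr 2
    ext p
    simp only [lengths, Set.mem_setOf_eq]
    constructor
    · rintro ⟨⟨h0, x, hx⟩, h3⟩
      exact ⟨⟨x, by rw [hx]; exact h0, hx⟩, h3⟩
    · rintro ⟨⟨x, h0, hx⟩, h3⟩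
      exact ⟨⟨by rw [← hx]; exact h0, x, hx⟩, h3⟩
  · intro Q P hP
    exact (h₂ Q P hP).trans (hweak c₂ C₂ hC₂ (min_le_right _ _) (by linarith) P)

end Pool.Agent.Results.MP_fd8838_nt.CycleShapes
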