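import Pool.Agent.Results.MP_fd8838_nt.EveryClassPositive
import Pool.Agent.Q179.PH.Disc

/-!
# Möller's maps and polynomials modulo one

Let `gcd(m, d) = 1`, `2 ≤ m ≤ d^(d/(d-1))`, and let `R` be admissible. Let `P` be a real polynomial of degree
`k ≥ 2` with irrational leading coefficient `α` and `0 ≤ u < v ≤ 1`. The `n` for which the fractional part of `P(n)` is in
the interval `[u, v)` are equidistributed with respect to all sets invariant under the map `T` (whose orbits contain the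
orbits of the generalised Hasse–Syracuse map `H` as the subsequences of the terms not divisible by `d`), uniformly in
the set and in the polynomials with given `k` and `α`. So each large element of the exceptional set is in the same class as
a positive proportion of these `n`, and Möller's conjecture for `(d, m, R)` is equivalent to: there are only
finitely many positive periodic points, and for infinitely many `N` almost no trajectory starting at such an `n ≤ N` tends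
to infinity.

Method. `Pool/Agent/Q179/PH` (dispersion inequality of the starting files `Y965/GP`, Weyl sums of the starting files
`H238R3/UL`) and the starting theorem `EveryClassPositive`.
-/

set_option autoImplicit false

namespace Pool.Agent.Results.MP_fd8838_nt.PolynomialWindows

open Finset Filter Topology Polynomial

/-- the generalised Hasse–Syracuse map `H(x) = (m x - r_j) / d ^ a(x)`, where `j` is the residue of
`x` modulo `d` and `d ^ a(x)` is the largest power of `d` dividing `m x - r_j` -/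
noncomputable def H (d m : ℕ) (r : ℤ → ℤ) (x : ℤ) : ℤ :=
  (m * x - r (x % d)) / (d : ℤ) ^ multiplicity (d : ℤ) (m * x - r (x % d))

/-- the exceptional set `E(d, m, R)`: the positive integers `n` not divisible by `d` such that
`H^k(n) ≥ n` for all `k ≥ 1` for which `H^k(n)` is defined (the orbit stops at `y` if
`m y ≤ r_j`) -/
def E (d m : ℕ) (r : ℤ → ℤ) : Set ℤ :=
  {n | 0 < n ∧ ¬ (d : ℤ) ∣ n ∧ ∀ k, 1 ≤ k →
    (∀ i < k, r ((H d m r)^[i] n % d) < m * (H d m r)^[i] n) → n ≤ (H d m r)^[k] n}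

/-- the map `T(n) = n / d` if `d ∣ n` and `(m n - r_j) / d` if `n ≡ j mod d`, `1 ≤ j < d` -/
def T (d m : ℕ) (r : ℤ → ℤ) (n : ℤ) : ℤ :=
  if (d : ℤ) ∣ n then n / d else (m * n - r (n % d)) / d

/-- `S` is invariant: `x ∈ S` if and only if `T x ∈ S`. -/
def Invariant (d m : ℕ) (r : ℤ → ℤ) (S : Set ℤ) : Prop := ∀ x : ℤ, x ∈ S ↔ T d m r x ∈ S

/-- The integers whose trajectories meet the trajectory of `e`. -/
def Class (d m : ℕ) (r : ℤ → ℤ) (e : ℤ) : Set ℤ := {n | ∃ i j : ℕ, (T d m r)^[i] n = (T d m r)^[j] e}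

/-- The integers whose trajectories tend to `+∞`. -/
def Divergent (d m : ℕ) (r : ℤ → ℤ) : Set ℤ := {n | Tendsto (fun k : ℕ => (T d m r)^[k] n) atTop atTop}

/-- `S` has natural density `δ` on the side `σ` (`σ = 1`: positive integers, `σ = -1`: negative
integers): `#{x ∈ S : 1 ≤ σ x ≤ N} / N → δ` -/
def HasDensity (S : Set ℤ) (σ : ℤ) (δ : ℝ) : Prop :=
  Tendsto (fun N : ℕ => (Set.ncard {x : ℤ | x ∈ S ∧ 1 ≤ σ * x ∧ σ * x ≤ N} : ℝ) / N) atTop (𝓝 δ)

/-- The number of the `n ≤ N` such that `σ n ∈ S` and the fractional part of `P(n)` is in `[u, v)`. -/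
noncomputable def count (S : Set ℤ) (σ : ℤ) (P : ℝ[X]) (u v : ℝ) (N : ℕ) : ℕ :=
  {n : ℕ | 1 ≤ n ∧ n ≤ N ∧ σ * n ∈ S ∧ u ≤ Int.fract (P.eval (n : ℝ)) ∧ Int.fract (P.eval (n : ℝ)) < v}.ncard

/-- The number of the `n ≤ N` such that `σ n ∈ S`. -/
noncomputable def total (S : Set ℤ) (σ : ℤ) (N : ℕ) : ℕ := {x : ℤ | x ∈ S ∧ 1 ≤ σ * x ∧ σ * x ≤ N}.ncard

/-! ### proofs -/

open Pool.Agent.Q179.PH
open Pool.Agent.W39 (TM mm' rr' TM_eq adm)

open Classical in
noncomputable def ind (S : Set ℤ) (x : ℤ) : ℝ := if x ∈ S then 1 else 0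

theorem ind_nonneg (S : Set ℤ) (x : ℤ) : 0 ≤ ind S x := by
  unfold ind; split_ifs <;> norm_num

theorem sync_ind {d m : ℕ} (hd : 2 ≤ d) {r : ℤ → ℤ} {S : Set ℤ} (hS : Invariant d m r S) :
    Syn d (mm' m) (rr' r) (ind S) := by
  have hT : T d m r = Pool.Agent.H319R3.GC.Tm d (mm' m) (rr' r) := TM_eq d m hd r
  have hiter : ∀ (k : ℕ) (x : ℤ), x ∈ S ↔ (T d m r)^[k] x ∈ S := by
    intro k
    induction k with
    | zero => intro x; rfl
    | succ k ih => intro x; rw [Function.iterate_succ_apply, ← ih, hS x]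
  refine ⟨fun x => ?_, fun k x y _ _ h => ?_⟩
  · unfold ind; split_ifs <;> simp
  · rw [← hT] at h
    have e1 : x ∈ S ↔ y ∈ S := by rw [hiter k x, hiter k y, h]
    unfold ind
    by_cases h1 : x ∈ S
    · rw [if_pos h1, if_pos (e1.1 h1)]
    · rw [if_neg h1, if_neg (fun h2 => h1 (e1.2 h2))]

open Classical in
theorem count_eq (S : Set ℤ) (σ : ℤ) (P : ℝ[X]) (u v : ℝ) (N : ℕ) : (count S σ P u v N : ℝ) =
    ∑ n ∈ (Icc 1 N).filter (fun n : ℕ => u ≤ Int.fract (P.eval (n : ℝ)) ∧ Int.fract (P.eval (n : ℝ)) < v), ind S (σ * (n : ℤ)) := by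
  unfold ind count
  rw [Finset.sum_boole]
  have e1 : {n : ℕ | 1 ≤ n ∧ n ≤ N ∧ σ * n ∈ S ∧ u ≤ Int.fract (P.eval (n : ℝ)) ∧ Int.fract (P.eval (n : ℝ)) < v} =
      (((Icc 1 N).filter (fun n : ℕ => u ≤ Int.fract (P.eval (n : ℝ)) ∧ Int.fract (P.eval (n : ℝ)) < v)).filter
        (fun n : ℕ => σ * (n : ℤ) ∈ S) : Finset ℕ) := by
    ext n
    simp only [Set.mem_ofPred_eq, coe_filter, mem_filter, mem_Icc]
    tauto
  rw [e1, Set.ncard_coe_finset]

theorem total_eq {σ : ℤ} (hσ : σ = 1 ∨ σ = -1) (S : Set ℤ) (N : ℕ) :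
    (total S σ N : ℝ) = ∑ x ∈ Icc 1 N, ind S (σ * (x : ℤ)) := by
  classical
  unfold ind total
  rw [Finset.sum_boole]
  have hinj : Function.Injective (fun x : ℕ => σ * (x : ℤ)) := by
    intro a b hab
    simp only at hab
    rcases hσ with rfl | rfl <;> omega
  rw [← Finset.card_image_of_injective _ hinj, ← Set.ncard_coe_finset]
  congr 2
  ext x
  rw [coe_image, Set.mem_image]
  constructor
  · rintro ⟨h1, h2, h3⟩
    refine ⟨(σ * x).toNat, ?_, ?_⟩
    · have e : (((σ * x).toNat : ℕ) : ℤ) = σ * x := Int.toNat_of_nonneg (by omega)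
      have e2 : σ * (((σ * x).toNat : ℕ) : ℤ) = x := by
        rw [e]
        rcases hσ with rfl | rfl <;> ring
      rw [mem_coe, mem_filter, mem_Icc, e2]
      refine ⟨⟨by omega, by omega⟩, h1⟩
    · have e : (((σ * x).toNat : ℕ) : ℤ) = σ * x := Int.toNat_of_nonneg (by omega)
      rw [e]
      rcases hσ with rfl | rfl <;> ring
  · rintro ⟨u, hu, rfl⟩
    rw [mem_coe, mem_filter, mem_Icc] at hu
    refine ⟨hu.2, ?_, ?_⟩
    · rcases hσ with rfl | rfl <;> omega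
    · rcases hσ with rfl | rfl <;> omega

section
variable {d m : ℕ} (hd : 2 ≤ d) (hm : 2 ≤ m) (hc : Nat.Coprime m d)
  (hle : (m : ℝ) ≤ (d : ℝ) ^ ((d : ℝ) / ((d : ℝ) - 1))) {r : ℤ → ℤ}
  (hr : ∀ j : ℤ, 0 < j → j < (d : ℤ) → r j ≡ (m : ℤ) * j [ZMOD (d : ℤ)])
include hd hm hc hle hr

theorem unifS {k : ℕ} (hk : 2 ≤ k) {α : ℝ} (hα : Irrational α) {ε : ℝ} (hε : 0 < ε) : ∃ N₀ : ℕ, ∀ N : ℕ, N₀ ≤ N →
    ∀ P : ℝ[X], P.natDegree ≤ k → P.coeff k = α → ∀ u v : ℝ, 0 ≤ u → u ≤ v → v ≤ 1 → ∀ σ : ℤ, (σ = 1 ∨ σ = -1) →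
    ∀ S : Set ℤ, Invariant d m r S → |(count S σ P u v N : ℝ) - (v - u) * total S σ N| ≤ ε * N := by
  obtain ⟨N0, h1⟩ := disc (adm hd hm hc hle hr) hk hα hε
  refine ⟨N0, fun N hN P hP hPc u v hu huv hv σ hσ S hS => ?_⟩
  rw [count_eq, total_eq hσ]
  exact h1 N hN σ hσ P hP hPc _ (sync_ind hd hS) u v hu huv hv

theorem densS {k : ℕ} (hk : 2 ≤ k) {α : ℝ} (hα : Irrational α) {σ : ℤ} (hσ : σ = 1 ∨ σ = -1) {S : Set ℤ}
    (hS : Invariant d m r S) {δ : ℝ} (hδ : HasDensity S σ δ) {ε : ℝ} (hε : 0 < ε) : ∃ N₀ : ℕ, ∀ N : ℕ, N₀ ≤ N →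
    ∀ P : ℝ[X], P.natDegree ≤ k → P.coeff k = α → ∀ u v : ℝ, 0 ≤ u → u ≤ v → v ≤ 1 →
      |(count S σ P u v N : ℝ) - (v - u) * δ * N| ≤ ε * N := by
  obtain ⟨N1, h1⟩ := unifS hd hm hc hle hr hk hα (show 0 < ε / 2 by positivity)
  have h2 := hδ
  unfold HasDensity at h2
  rw [Metric.tendsto_atTop] at h2
  obtain ⟨N2, hN2⟩ := h2 (ε / 2) (by positivity)
  refine ⟨N1 + N2 + 1, fun N hN P hP hPc u v hu huv hv => ?_⟩
  have h3 := h1 N (by omega) P hP hPc u v hu huv hv σ hσ S hS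
  have h4 := hN2 N (by omega)
  have hNp : (0 : ℝ) < N := by exact_mod_cast (by omega : 0 < N)
  rw [Real.dist_eq] at h4
  have h5 : |(total S σ N : ℝ) - δ * N| ≤ ε / 2 * N := by
    have e1 : (total S σ N : ℝ) - δ * N = ((total S σ N : ℝ) / N - δ) * N := by field_simp
    rw [e1, abs_mul, abs_of_pos hNp]
    exact mul_le_mul_of_nonneg_right h4.le hNp.le
  have h6 : |(v - u) * ((total S σ N : ℝ) - δ * N)| ≤ ε / 2 * N := by
    rw [abs_mul, abs_of_nonneg (by linarith : 0 ≤ v - u)]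
    calc (v - u) * |(total S σ N : ℝ) - δ * N| ≤ 1 * (ε / 2 * N) :=
          mul_le_mul (by linarith) h5 (abs_nonneg _) zero_le_one
      _ = _ := one_mul _
  have e2 : (count S σ P u v N : ℝ) - (v - u) * δ * N =
      ((count S σ P u v N : ℝ) - (v - u) * total S σ N) + (v - u) * ((total S σ N : ℝ) - δ * N) := by ring
  rw [e2]
  refine (abs_add_le _ _).trans ?_
  linarith

end

theorem divergent_inv (d m : ℕ) (r : ℤ → ℤ) : Invariant d m r (Divergent d m r) := by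
  intro x
  unfold Divergent
  rw [Set.mem_ofPred_eq, Set.mem_ofPred_eq, ← tendsto_add_atTop_iff_nat 1]
  simp only [Function.iterate_succ_apply]

theorem class_inv (d m : ℕ) (r : ℤ → ℤ) (e : ℤ) : Invariant d m r (Class d m r e) := by
  intro x
  constructor
  · rintro ⟨i, j, hij⟩
    refine ⟨i, j + 1, ?_⟩
    rw [← Function.iterate_succ_apply, Function.iterate_succ_apply', hij, Function.iterate_succ_apply']
  · rintro ⟨i, j, hij⟩
    exact ⟨i + 1, j, by rw [Function.iterate_succ_apply, hij]⟩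

/-- MÖLLER'S MAPS AND POLYNOMIALS MODULO ONE. Let `gcd(m, d) = 1`, `2 ≤ m ≤ d^(d/(d-1))`, `R` admissible, `k ≥ 2` and `α`
irrational.
(1) For `ε > 0` and large `N`, for ALL real polynomials `P` of degree `k` with leading coefficient `α`, all
`0 ≤ u ≤ v ≤ 1`, both signs `σ` and ALL invariant sets `S` the number of the `n ≤ N` with `σ n ∈ S` and fractional
part of `P(n)` in `[u, v)` is `v - u` times the number of the `n ≤ N` with `σ n ∈ S`, up to `ε N`.
(2) If `S` is invariant, `0 ∉ S`, and the trajectory of some point of `S` is infinitely often on the side `σ`,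
then `S` has a density `δ > 0` on the side `σ`, and this number is `(v - u) δ N` up to `ε N`, uniformly in `P`, `u`, `v`.
(3) This is so on the positive side for the class of each element `e` of the exceptional set which is larger than all `r_j`.
(4) Let `0 ≤ u < v ≤ 1`. No trajectory tends to `+∞` if and only if for every `ε > 0` there are arbitrarily large `N` and
polynomials `P` of degree `k` with leading coefficient `α` such that at most `ε N` of the `n ≤ N` with fractional part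
of `P(n)` in `[u, v)` have trajectories tending to `+∞`.
(5) Let `0 ≤ u < v ≤ 1`. The exceptional set is finite if and only if there are only finitely many positive periodic points
and the condition in (4) is satisfied. -/
theorem result (d m : ℕ) (hd : 2 ≤ d) (hm : 2 ≤ m) (hc : Nat.Coprime m d)
    (hle : (m : ℝ) ≤ (d : ℝ) ^ ((d : ℝ) / ((d : ℝ) - 1)))
    (r : ℤ → ℤ) (hr : ∀ j : ℤ, 0 < j → j < (d : ℤ) → r j ≡ (m : ℤ) * j [ZMOD (d : ℤ)])
    (k : ℕ) (hk : 2 ≤ k) (α : ℝ) (hα : Irrational α) :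
    (∀ ε : ℝ, 0 < ε → ∃ N₀ : ℕ, ∀ N : ℕ, N₀ ≤ N → ∀ P : ℝ[X], P.natDegree ≤ k → P.coeff k = α →
      ∀ u v : ℝ, 0 ≤ u → u ≤ v → v ≤ 1 → ∀ σ : ℤ, (σ = 1 ∨ σ = -1) → ∀ S : Set ℤ, Invariant d m r S →
        |(count S σ P u v N : ℝ) - (v - u) * total S σ N| ≤ ε * N) ∧
    (∀ S : Set ℤ, (0 : ℤ) ∉ S → Invariant d m r S → ∀ σ : ℤ, (σ = 1 ∨ σ = -1) →
      (∃ x ∈ S, ∀ k₀ : ℕ, ∃ k, k₀ ≤ k ∧ 0 < σ * (T d m r)^[k] x) →
      ∃ δ : ℝ, 0 < δ ∧ HasDensity S σ δ ∧ ∀ ε : ℝ, 0 < ε → ∃ N₀ : ℕ, ∀ N : ℕ, N₀ ≤ N → ∀ P : ℝ[X],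
        P.natDegree ≤ k → P.coeff k = α → ∀ u v : ℝ, 0 ≤ u → u ≤ v → v ≤ 1 →
          |(count S σ P u v N : ℝ) - (v - u) * δ * N| ≤ ε * N) ∧
    (∀ e ∈ E d m r, (∀ j : ℤ, 0 < j → j < (d : ℤ) → r j < e) →
      ∃ δ : ℝ, 0 < δ ∧ HasDensity (Class d m r e) 1 δ ∧ ∀ ε : ℝ, 0 < ε → ∃ N₀ : ℕ, ∀ N : ℕ, N₀ ≤ N → ∀ P : ℝ[X],
        P.natDegree ≤ k → P.coeff k = α → ∀ u v : ℝ, 0 ≤ u → u ≤ v → v ≤ 1 →
          |(count (Class d m r e) 1 P u v N : ℝ) - (v - u) * δ * N| ≤ ε * N) ∧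
    ∀ u v : ℝ, 0 ≤ u → u < v → v ≤ 1 →
      (Divergent d m r = ∅ ↔ ∀ ε : ℝ, 0 < ε → ∀ M : ℕ, ∃ N : ℕ, M ≤ N ∧ ∃ P : ℝ[X],
        P.natDegree ≤ k ∧ P.coeff k = α ∧ (count (Divergent d m r) 1 P u v N : ℝ) ≤ ε * N) ∧
      ((E d m r).Finite ↔ {c : ℤ | 0 < c ∧ ∃ p : ℕ, 1 ≤ p ∧ (T d m r)^[p] c = c}.Finite ∧
        ∀ ε : ℝ, 0 < ε → ∀ M : ℕ, ∃ N : ℕ, M ≤ N ∧ ∃ P : ℝ[X],
          P.natDegree ≤ k ∧ P.coeff k = α ∧ (count (Divergent d m r) 1 P u v N : ℝ) ≤ ε * N) := by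
  obtain ⟨p1, p2, p3, p4⟩ := EveryClassPositive.result d m hd hm hc hle r hr
  have hcrit : ∀ u v : ℝ, 0 ≤ u → u < v → v ≤ 1 →
      (Divergent d m r = ∅ ↔ ∀ ε : ℝ, 0 < ε → ∀ M : ℕ, ∃ N : ℕ, M ≤ N ∧ ∃ P : ℝ[X],
        P.natDegree ≤ k ∧ P.coeff k = α ∧ (count (Divergent d m r) 1 P u v N : ℝ) ≤ ε * N) := by
    intro u v hu huv hv
    constructor
    · intro hD ε hε M
      refine ⟨M, le_rfl, Polynomial.C α * X ^ k, natDegree_C_mul_X_pow_le _ _, by simp, ?_⟩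
      rw [hD]
      have : count ∅ 1 (Polynomial.C α * X ^ k) u v M = 0 := by
        unfold count
        simp
      rw [this]
      push_cast
      positivity
    · intro hE
      by_contra hne
      obtain ⟨n, hn⟩ := Set.nonempty_iff_ne_empty.2 hne
      obtain ⟨δ, hδ0, hδ⟩ := p3 ⟨n, hn⟩
      have hvu : 0 < v - u := by linarith
      obtain ⟨N0, h1⟩ := densS hd hm hc hle hr hk hα (Or.inl rfl) (divergent_inv d m r) hδ
        (show 0 < (v - u) * δ / 4 by positivity)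
      obtain ⟨N, hN, P, hP, hPc, h2⟩ := hE ((v - u) * δ / 4) (by positivity) (N0 + 1)
      have h3 := (abs_le.1 (h1 N (by omega) P hP hPc u v hu huv.le hv)).1
      have hNp : (0 : ℝ) < N := by exact_mod_cast (by omega : 0 < N)
      have h4 : 0 < (v - u) * δ * N := by positivity
      linarith
  refine ⟨fun ε hε => unifS hd hm hc hle hr hk hα hε, fun S h0 hS σ hσ hx => ?_, fun e he hR => ?_,
    fun u v hu huv hv => ⟨hcrit u v hu huv hv, ?_⟩⟩
  · obtain ⟨δ, hδ0, hδ⟩ := p1 S h0 hS σ hσ hx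
    exact ⟨δ, hδ0, hδ, fun ε hε => densS hd hm hc hle hr hk hα hσ hS hδ hε⟩
  · obtain ⟨δ, hδ0, hδ⟩ := p2 e he hR
    exact ⟨δ, hδ0, hδ, fun ε hε => densS hd hm hc hle hr hk hα (Or.inl rfl) (class_inv d m r e) hδ hε⟩
  · rw [← hcrit u v hu huv hv]
    constructor
    · intro hfin
      have h1 : ¬ ({c : ℤ | 0 < c ∧ ∃ p : ℕ, 1 ≤ p ∧ (T d m r)^[p] c = c}.Infinite ∨ ∃ δ : ℝ, 0 < δ ∧
          HasDensity {n : ℤ | Tendsto (fun k : ℕ => (T d m r)^[k] n) atTop atTop} 1 δ) := fun h => p4.2 h hfin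
      push Not at h1
      refine ⟨h1.1, ?_⟩
      by_contra hne
      obtain ⟨n, hn⟩ := Set.nonempty_iff_ne_empty.2 hne
      obtain ⟨δ, hδ0, hδ⟩ := p3 ⟨n, hn⟩
      exact h1.2 δ hδ0 hδ
    · rintro ⟨h1, h2⟩
      rw [← Set.not_infinite]
      intro hinf
      rcases p4.1 hinf with h3 | ⟨δ, hδ0, hδ⟩
      · exact h3 h1
      · have h4 : HasDensity (Divergent d m r) 1 δ := hδ
        rw [h2] at h4
        have h5 : HasDensity ∅ 1 0 := by
          unfold HasDensity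
          simp
        exact hδ0.ne' (tendsto_nhds_unique h4 h5)

end Pool.Agent.Results.MP_fd8838_nt.PolynomialWindows
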