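import Pool.Agent.Results.MP_fd8838_nt.EveryClassPositive
import Pool.Agent.Q179.PH.Omg3

/-!
# Möller's maps and the number of prime factors

Let `gcd(m, d) = 1`, `2 ≤ m ≤ d^(d/(d-1))`, and let `R` be admissible. The number of prime factors `Ω(n)` (with
multiplicity) modulo `q` and the fractional parts of quadratic polynomials are jointly equidistributed on ALL sets
invariant under the map `T` (whose orbits contain the orbits of the generalised Hasse–Syracuse map `H` as the subsequences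
of the terms not divisible by `d`): outside a set of scales of logarithmic density zero which does not depend on anything,
uniformly in the invariant set, and in the sense of logarithmic density at all scales. So each large element of the
exceptional set is in the same class as a positive proportion of the `n` with `Ω(n) ≡ a mod q` and `αn² + βn + γ` in a given
interval modulo one, and Möller's conjecture for `(d, m, R)` is equivalent to: there are only finitely many positive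
periodic points, and almost no trajectory starting at such an `n` tends to infinity.

Method. `Pool/Agent/Q179/PH` (dispersion inequality of the starting files `Y965/GP`), two point correlations of
`z ^ Ω(n)` at almost all scales (starting files `Y842`, `Y958`; `Pool/Agent/Q42/SH`), and the starting theorem
`EveryClassPositive`.
-/

set_option autoImplicit false

namespace Pool.Agent.Results.MP_fd8838_nt.PrimeFactors

open Finset Filter Topology

/-- the generalised Hasse–Syracuse map `H(x) = (m x - r_j) / d ^ a(x)`, where `j` is the residue of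
`x` modulo `d` and `d ^ a(x)` is the largest power of `d` dividing `m x - r_j` -/
noncomputable def H (d m : ℕ) (r : ℤ → ℤ) (x : ℤ) : ℤ :=
  (m * x - r (x % d)) / (d : ℤ) ^ multiplicity (d : ℤ) (m * x - r (x % d))

/-- the exceptional set `E(d, m, R)`: the positive integers `n` not divisible by `d` such that
`H^k(n) ≥ n` for all `k ≥ 1` for which `H^k(n)` is defined (the orbit stops at `y` if
`m y ≤ r_j`) -/
def E (d m : ℕ) (r : ℤ → ℤ) : Set ℤ :=
  {n | 0 < n ∧ ¬ (d : ℤ) ∣ n ∧ ∀ k, 1 ≤ k →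
    (∀ i < k, r ((H d m r)^[i] n % d) < m * (H d m r)^[i] n) → n ≤ (H d m r)^[k] n}

/-- the map `T(n) = n / d` if `d ∣ n` and `(m n - r_j) / d` if `n ≡ j mod d`, `1 ≤ j < d` -/
def T (d m : ℕ) (r : ℤ → ℤ) (n : ℤ) : ℤ :=
  if (d : ℤ) ∣ n then n / d else (m * n - r (n % d)) / d

/-- `S` is invariant: `x ∈ S` if and only if `T x ∈ S`. -/
def Invariant (d m : ℕ) (r : ℤ → ℤ) (S : Set ℤ) : Prop := ∀ x : ℤ, x ∈ S ↔ T d m r x ∈ S

/-- The integers whose trajectories meet the trajectory of `e`. -/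
def Class (d m : ℕ) (r : ℤ → ℤ) (e : ℤ) : Set ℤ := {n | ∃ i j : ℕ, (T d m r)^[i] n = (T d m r)^[j] e}

/-- The integers whose trajectories tend to `+∞`. -/
def Divergent (d m : ℕ) (r : ℤ → ℤ) : Set ℤ := {n | Tendsto (fun k : ℕ => (T d m r)^[k] n) atTop atTop}

/-- `S` has natural density `δ` on the side `σ` (`σ = 1`: positive integers, `σ = -1`: negative
integers): `#{x ∈ S : 1 ≤ σ x ≤ N} / N → δ` -/
def HasDensity (S : Set ℤ) (σ : ℤ) (δ : ℝ) : Prop :=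
  Tendsto (fun N : ℕ => (Set.ncard {x : ℤ | x ∈ S ∧ 1 ≤ σ * x ∧ σ * x ≤ N} : ℝ) / N) atTop (𝓝 δ)

/-- The positive integers `n` with `Ω(n) ≡ a mod q` (`Ω(n)` is the number of the prime factors of `n`, counted with
multiplicity) such that the fractional part of `α n² + β n + γ` is in `[u, v)`. -/
def Test (q a : ℕ) (α β γ u v : ℝ) : Set ℕ :=
  {n | ArithmeticFunction.cardFactors n % q = a % q ∧ u ≤ Int.fract (α * (n : ℝ) ^ 2 + β * n + γ) ∧
    Int.fract (α * (n : ℝ) ^ 2 + β * n + γ) < v}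

/-- The number of the positive `n ≤ N` in `A` such that `σ n ∈ S`. -/
noncomputable def count (A : Set ℕ) (S : Set ℤ) (σ : ℤ) (N : ℕ) : ℕ := {n : ℕ | 1 ≤ n ∧ n ≤ N ∧ n ∈ A ∧ σ * n ∈ S}.ncard

open Classical in
/-- The sum of `1 / n` over the positive `n ≤ X` in `A` such that `σ n ∈ S`. -/
noncomputable def logsum (A : Set ℕ) (S : Set ℤ) (σ : ℤ) (X : ℕ) : ℝ :=
  ∑ n ∈ (Icc 1 X).filter (fun n : ℕ => n ∈ A ∧ σ * n ∈ S), (1 : ℝ) / n

open Classical in
/-- The set of scales `𝓔` has logarithmic density zero. -/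
def LogZero (𝓔 : Set ℕ) : Prop := ∀ ε : ℝ, 0 < ε → ∃ X₀ : ℕ, ∀ X : ℕ, X₀ ≤ X →
  ∑ N ∈ (Icc 1 X).filter (fun N : ℕ => N ∈ 𝓔), (1 : ℝ) / N ≤ ε * Real.log X

/-! ### proofs -/

open Pool.Agent.Q179.PH
open Pool.Agent.W39 (TM mm' rr' TM_eq adm)

open Classical in
noncomputable def ind (S : Set ℤ) (x : ℤ) : ℝ := if x ∈ S then 1 else 0

theorem ind_nonneg (S : Set ℤ) (x : ℤ) : 0 ≤ ind S x := by
  unfold ind; split_ifs <;> norm_num

theorem ind_le (S : Set ℤ) (x : ℤ) : ind S x ≤ 1 := by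
  unfold ind; split_ifs <;> norm_num

theorem sync_ind {d m : ℕ} (hd : 2 ≤ d) {r : ℤ → ℤ} {S : Set ℤ} (hS : Invariant d m r S) :
    Syn d (mm' m) (rr' r) (ind S) := by
  have hT : T d m r = Pool.Agent.H319R3.GC.Tm d (mm' m) (rr' r) := TM_eq d m hd r
  have hiter : ∀ (k : ℕ) (x : ℤ), x ∈ S ↔ (T d m r)^[k] x ∈ S := by
    intro k
    induction k with
    | zero => intro x; rfl
    | succ k ih => intro x; rw [Function.iterate_succ_apply, ← ih, hS x]
  refine ⟨fun x => ?_, fun k x y _ _ h => ?_⟩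
  · unfold ind; split_ifs <;> simp
  · rw [← hT] at h
    have e1 : x ∈ S ↔ y ∈ S := by rw [hiter k x, hiter k y, h]
    unfold ind
    by_cases h1 : x ∈ S
    · rw [if_pos h1, if_pos (e1.1 h1)]
    · rw [if_neg h1, if_neg (fun h2 => h1 (e1.2 h2))]

open Classical in
noncomputable def indN (A : Set ℕ) (n : ℕ) : ℝ := if n ∈ A then 1 else 0

theorem indN_nonneg (A : Set ℕ) (n : ℕ) : 0 ≤ indN A n := by
  unfold indN; split_ifs <;> norm_num

theorem indN_le (A : Set ℕ) (n : ℕ) : indN A n ≤ 1 := by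
  unfold indN; split_ifs <;> norm_num

theorem count_eq (A : Set ℕ) (S : Set ℤ) (σ : ℤ) (N : ℕ) :
    (count A S σ N : ℝ) = ∑ n ∈ Icc 1 N, indN A n * ind S (σ * (n : ℤ)) := by
  classical
  have h1 : ∀ n : ℕ, indN A n * ind S (σ * (n : ℤ)) = if n ∈ A ∧ σ * (n : ℤ) ∈ S then 1 else 0 := by
    intro n
    unfold indN ind
    by_cases h1 : n ∈ A <;> by_cases h2 : σ * (n : ℤ) ∈ S <;> simp [h1, h2]
  rw [sum_congr rfl fun n _ => h1 n, Finset.sum_boole]
  unfold count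
  have e1 : {n : ℕ | 1 ≤ n ∧ n ≤ N ∧ n ∈ A ∧ σ * n ∈ S} =
      ((Icc 1 N).filter (fun n : ℕ => n ∈ A ∧ σ * (n : ℤ) ∈ S) : Finset ℕ) := by
    ext n
    simp only [Set.mem_ofPred_eq, coe_filter, mem_Icc]
    tauto
  rw [e1, Set.ncard_coe_finset]

theorem logsum_eq (A : Set ℕ) (S : Set ℤ) (σ : ℤ) (N : ℕ) :
    logsum A S σ N = ∑ n ∈ Icc 1 N, indN A n * ind S (σ * (n : ℤ)) / n := by
  classical
  unfold logsum
  rw [sum_filter]
  apply sum_congr rfl
  intro n _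
  unfold indN ind
  by_cases h1 : n ∈ A <;> by_cases h2 : σ * (n : ℤ) ∈ S <;> simp [h1, h2]

theorem indN_univ (n : ℕ) : indN Set.univ n = 1 := by
  unfold indN
  simp

theorem total_eq {σ : ℤ} (hσ : σ = 1 ∨ σ = -1) (S : Set ℤ) (N : ℕ) :
    (Set.ncard {x : ℤ | x ∈ S ∧ 1 ≤ σ * x ∧ σ * x ≤ N} : ℝ) = ∑ x ∈ Icc 1 N, ind S (σ * (x : ℤ)) := by
  classical
  unfold ind
  rw [Finset.sum_boole]
  have hinj : Function.Injective (fun x : ℕ => σ * (x : ℤ)) := by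
    intro a b hab
    simp only at hab
    rcases hσ with rfl | rfl <;> omega
  rw [← Finset.card_image_of_injective _ hinj, ← Set.ncard_coe_finset]
  congr 2
  ext x
  rw [coe_image, Set.mem_image]
  constructor
  · rintro ⟨h1, h2, h3⟩
    refine ⟨(σ * x).toNat, ?_, ?_⟩
    · have e : (((σ * x).toNat : ℕ) : ℤ) = σ * x := Int.toNat_of_nonneg (by omega)
      have e2 : σ * (((σ * x).toNat : ℕ) : ℤ) = x := by
        rw [e]
        rcases hσ with rfl | rfl <;> ring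
      rw [mem_coe, mem_filter, mem_Icc, e2]
      refine ⟨⟨by omega, by omega⟩, h1⟩
    · have e : (((σ * x).toNat : ℕ) : ℤ) = σ * x := Int.toNat_of_nonneg (by omega)
      rw [e]
      rcases hσ with rfl | rfl <;> ring
  · rintro ⟨u, hu, rfl⟩
    rw [mem_coe, mem_filter, mem_Icc] at hu
    refine ⟨hu.2, ?_, ?_⟩
    · rcases hσ with rfl | rfl <;> omega
    · rcases hσ with rfl | rfl <;> omega

open Classical in
theorem indN_test (q a : ℕ) (α β γ u v : ℝ) (n : ℕ) : indN (Test q a α β γ u v) n =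
    if ArithmeticFunction.cardFactors n % q = a % q ∧ u ≤ Int.fract (α * (n : ℝ) ^ 2 + β * n + γ) ∧
        Int.fract (α * (n : ℝ) ^ 2 + β * n + γ) < v then (1 : ℝ) else 0 := by
  unfold indN
  by_cases h : ArithmeticFunction.cardFactors n % q = a % q ∧ u ≤ Int.fract (α * (n : ℝ) ^ 2 + β * n + γ) ∧
        Int.fract (α * (n : ℝ) ^ 2 + β * n + γ) < v
  · have h' : n ∈ Test q a α β γ u v := h
    rw [if_pos h, if_pos h']
  · have h' : n ∉ Test q a α β γ u v := h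
    rw [if_neg h, if_neg h']

section
variable {d m : ℕ} (hd : 2 ≤ d) (hm : 2 ≤ m) (hc : Nat.Coprime m d)
  (hle : (m : ℝ) ≤ (d : ℝ) ^ ((d : ℝ) / ((d : ℝ) - 1))) {r : ℤ → ℤ}
  (hr : ∀ j : ℤ, 0 < j → j < (d : ℤ) → r j ≡ (m : ℤ) * j [ZMOD (d : ℤ)])
include hd hm hc hle hr

theorem diffS {𝓔 : Set ℕ} (hG : Good 𝓔) {q : ℕ} (hq : 1 ≤ q) {α : ℝ} (hα : Irrational α) {ε : ℝ} (hε : 0 < ε) :
    ∃ N₀ : ℕ, ∀ N : ℕ, N₀ ≤ N → N ∉ 𝓔 → ∀ (a : ℕ) (β γ u v : ℝ), 0 ≤ u → u ≤ v → v ≤ 1 → ∀ σ : ℤ, (σ = 1 ∨ σ = -1) →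
    ∀ S : Set ℤ, Invariant d m r S →
      |∑ n ∈ Icc 1 N, (indN (Test q a α β γ u v) n - (v - u) / q) * ind S (σ * (n : ℤ))| ≤ ε * N := by
  obtain ⟨N0, h1⟩ := jointSyn hG (adm hd hm hc hle hr) hq hα hε
  refine ⟨N0, fun N hN hNE a β γ u v hu huv hv σ hσ S hS => ?_⟩
  have h2 := h1 N hN hNE σ hσ β γ a _ (sync_ind hd hS) (ind_nonneg S) u v hu huv hv
  simp only [indN_test]
  convert h2 using 6

theorem unifS {𝓔 : Set ℕ} (hG : Good 𝓔) {q : ℕ} (hq : 1 ≤ q) {α : ℝ} (hα : Irrational α) {ε : ℝ} (hε : 0 < ε) :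
    ∃ N₀ : ℕ, ∀ N : ℕ, N₀ ≤ N → N ∉ 𝓔 → ∀ (a : ℕ) (β γ u v : ℝ), 0 ≤ u → u ≤ v → v ≤ 1 → ∀ σ : ℤ, (σ = 1 ∨ σ = -1) →
    ∀ S : Set ℤ, Invariant d m r S →
      |(count (Test q a α β γ u v) S σ N : ℝ) - (v - u) / q * count Set.univ S σ N| ≤ ε * N := by
  obtain ⟨N0, h1⟩ := diffS hd hm hc hle hr hG hq hα hε
  refine ⟨N0, fun N hN hNE a β γ u v hu huv hv σ hσ S hS => ?_⟩
  have h2 := h1 N hN hNE a β γ u v hu huv hv σ hσ S hS
  rw [count_eq, count_eq, mul_sum, ← sum_sub_distrib]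
  refine le_trans (le_of_eq ?_) h2
  congr 1
  apply sum_congr rfl
  intro n _
  rw [indN_univ]
  ring

theorem logS {𝓔 : Set ℕ} (hE : Pool.Agent.Y958.U.LZ 𝓔) (hG : Good 𝓔) {q : ℕ} (hq : 1 ≤ q) {α : ℝ} (hα : Irrational α)
    {ε : ℝ} (hε : 0 < ε) :
    ∃ X₀ : ℕ, ∀ X : ℕ, X₀ ≤ X → ∀ (a : ℕ) (β γ u v : ℝ), 0 ≤ u → u ≤ v → v ≤ 1 → ∀ σ : ℤ, (σ = 1 ∨ σ = -1) →
    ∀ S : Set ℤ, Invariant d m r S →
      |logsum (Test q a α β γ u v) S σ X - (v - u) / q * logsum Set.univ S σ X| ≤ ε * Real.log X := by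
  obtain ⟨N0, h1⟩ := diffS hd hm hc hle hr hG hq hα (show 0 < ε / 4 by positivity)
  obtain ⟨X0, h2⟩ := log_of hE hε N0
  refine ⟨X0, fun X hX a β γ u v hu huv hv σ hσ S hS => ?_⟩
  have hqR : (1 : ℝ) ≤ q := by exact_mod_cast hq
  have hvu0 : 0 ≤ (v - u) / q := div_nonneg (by linarith) (by linarith)
  have hvu1 : (v - u) / q ≤ 1 := by
    rw [div_le_one (by linarith)]
    linarith
  have h3 := h2 X hX (fun n => (indN (Test q a α β γ u v) n - (v - u) / q) * ind S (σ * (n : ℤ))) (fun n => by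
    have a1 := indN_nonneg (Test q a α β γ u v) n
    have a2 := indN_le (Test q a α β γ u v) n
    have a3 : |indN (Test q a α β γ u v) n - (v - u) / q| ≤ 1 := by
      rw [abs_le]
      constructor <;> linarith
    rw [abs_mul, abs_of_nonneg (ind_nonneg S _)]
    exact mul_le_one₀ a3 (ind_nonneg S _) (ind_le S _)) (fun N hN hNE => h1 N hN hNE a β γ u v hu huv hv σ hσ S hS)
  rw [logsum_eq, logsum_eq, mul_sum, ← sum_sub_distrib]
  refine le_trans (le_of_eq ?_) h3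
  congr 1
  apply sum_congr rfl
  intro n _
  rw [indN_univ]
  ring

theorem densS {𝓔 : Set ℕ} (hE : Pool.Agent.Y958.U.LZ 𝓔) (hG : Good 𝓔) {q : ℕ} (hq : 1 ≤ q) {α : ℝ} (hα : Irrational α)
    {σ : ℤ} (hσ : σ = 1 ∨ σ = -1) {S : Set ℤ} (hS : Invariant d m r S) {δ : ℝ} (hδ : HasDensity S σ δ)
    {ε : ℝ} (hε : 0 < ε) : ∃ X₀ : ℕ, ∀ X : ℕ, X₀ ≤ X → ∀ (a : ℕ) (β γ u v : ℝ), 0 ≤ u → u ≤ v → v ≤ 1 →
      |logsum (Test q a α β γ u v) S σ X - (v - u) / q * δ * Real.log X| ≤ ε * Real.log X := by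
  obtain ⟨X1, h1⟩ := logS hd hm hc hle hr hE hG hq hα (show 0 < ε / 2 by positivity)
  have h2 : Tendsto (fun N : ℕ => (∑ n ∈ Icc 1 N, ind S (σ * (n : ℤ))) / N) atTop (𝓝 δ) := by
    refine hδ.congr fun N => ?_
    rw [total_eq hσ]
  have hle1 : ∀ N : ℕ, (∑ n ∈ Icc 1 N, ind S (σ * (n : ℤ))) / N ≤ 1 := by
    intro N
    apply div_le_one_of_le₀ _ (Nat.cast_nonneg N)
    calc ∑ n ∈ Icc 1 N, ind S (σ * (n : ℤ)) ≤ ∑ _n ∈ Icc 1 N, (1 : ℝ) := sum_le_sum fun n _ => ind_le S _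
      _ = N := by simp
  have hge0 : ∀ N : ℕ, 0 ≤ (∑ n ∈ Icc 1 N, ind S (σ * (n : ℤ))) / N := fun N =>
    div_nonneg (sum_nonneg fun n _ => ind_nonneg S _) (Nat.cast_nonneg N)
  have hδ0 : 0 ≤ δ := ge_of_tendsto' h2 hge0
  have hδ1 : δ ≤ 1 := le_of_tendsto' h2 hle1
  obtain ⟨X2, h3⟩ := log_dens (G := fun n : ℕ => ind S (σ * (n : ℤ))) (fun n => ind_nonneg S _) (fun n => ind_le S _)
    hδ0 hδ1 h2 (show 0 < ε / 2 by positivity)
  refine ⟨X1 + X2, fun X hX a β γ u v hu huv hv => ?_⟩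
  have h4 := h1 X (by omega) a β γ u v hu huv hv σ hσ S hS
  have h5 := h3 X (by omega)
  have h6 : logsum Set.univ S σ X = ∑ n ∈ Icc 1 X, ind S (σ * (n : ℤ)) / n := by
    rw [logsum_eq]
    simp only [indN_univ, one_mul]
  rw [← h6] at h5
  have hqR : (1 : ℝ) ≤ q := by exact_mod_cast hq
  have hvu0 : 0 ≤ (v - u) / q := div_nonneg (by linarith) (by linarith)
  have hvu1 : (v - u) / q ≤ 1 := by
    rw [div_le_one (by linarith)]
    linarith
  have h7 : |(v - u) / q * (logsum Set.univ S σ X - δ * Real.log X)| ≤ ε / 2 * Real.log X := by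
    rw [abs_mul, abs_of_nonneg hvu0]
    calc _ ≤ 1 * (ε / 2 * Real.log X) := mul_le_mul hvu1 h5 (abs_nonneg _) zero_le_one
      _ = _ := one_mul _
  have e2 : logsum (Test q a α β γ u v) S σ X - (v - u) / q * δ * Real.log X =
      (logsum (Test q a α β γ u v) S σ X - (v - u) / q * logsum Set.univ S σ X) +
      (v - u) / q * (logsum Set.univ S σ X - δ * Real.log X) := by ring
  rw [e2]
  refine (abs_add_le _ _).trans ?_
  linarith

end

theorem divergent_inv (d m : ℕ) (r : ℤ → ℤ) : Invariant d m r (Divergent d m r) := by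
  intro x
  unfold Divergent
  rw [Set.mem_ofPred_eq, Set.mem_ofPred_eq, ← tendsto_add_atTop_iff_nat 1]
  simp only [Function.iterate_succ_apply]

theorem class_inv (d m : ℕ) (r : ℤ → ℤ) (e : ℤ) : Invariant d m r (Class d m r e) := by
  intro x
  constructor
  · rintro ⟨i, j, hij⟩
    refine ⟨i, j + 1, ?_⟩
    rw [← Function.iterate_succ_apply, Function.iterate_succ_apply', hij, Function.iterate_succ_apply']
  · rintro ⟨i, j, hij⟩
    exact ⟨i + 1, j, by rw [Function.iterate_succ_apply, hij]⟩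

theorem logZero_of {𝓔 : Set ℕ} (hE : Pool.Agent.Y958.U.LZ 𝓔) : LogZero 𝓔 := by
  classical
  intro ε hε
  obtain ⟨X0, h1⟩ := (Pool.Agent.Y842.EL.LZ_eps 𝓔).1 hE ε hε
  refine ⟨X0, fun X hX => ?_⟩
  refine le_trans (le_of_eq ?_) (h1 X hX)
  unfold Pool.Agent.Y304.U.sE Pool.Agent.Y304.U.ind
  rw [sum_filter]
  apply sum_congr rfl
  intro n _
  by_cases h : n ∈ 𝓔 <;> simp [h]

/-- MÖLLER'S MAPS AND THE NUMBER OF PRIME FACTORS. There is a set `𝓔` of scales of logarithmic density zero such that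
for all `d`, `m`, `R` with `gcd(m, d) = 1`, `2 ≤ m ≤ d^(d/(d-1))`, `R` admissible, all `q ≥ 1` and all irrational `α`:
(1) For `ε > 0` and large `N ∉ 𝓔`, for ALL residues `a`, all real `β`, `γ`, `0 ≤ u ≤ v ≤ 1`, both signs `σ` and ALL
invariant sets `S` the number of the `n ≤ N` with `σ n ∈ S`, `Ω(n) ≡ a mod q` and fractional part of `α n² + β n + γ` in
`[u, v)` is `(v - u) / q` times the number of the `n ≤ N` with `σ n ∈ S`, up to `ε N`.
(2) For `ε > 0` and ALL large `X`, with the same uniformity, this is so for the sums of `1 / n`, `n ≤ X`, up to `ε log X`.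
(3) If `S` is invariant, `0 ∉ S`, and the trajectory of some point of `S` is infinitely often on the side `σ`,
then `S` has a density `δ > 0` on the side `σ`, and the sum of `1 / n` over the `n ≤ X` with `σ n ∈ S`, `Ω(n) ≡ a mod q` and
fractional part of `α n² + β n + γ` in `[u, v)` is `(v - u) δ / q * log X` up to `ε log X`, uniformly in `a`, `β`, `γ`, `u`, `v`.
(4) This is so on the positive side for the class of each element `e` of the exceptional set which is larger than all `r_j`.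
(5) Let `0 ≤ u < v ≤ 1`. No trajectory tends to `+∞` if and only if for every `ε > 0` there are arbitrarily large `X` and
`a`, `β`, `γ` such that the sum of `1 / n` over the `n ≤ X` with `Ω(n) ≡ a mod q`, fractional part of `α n² + β n + γ` in
`[u, v)` and trajectory tending to `+∞` is at most `ε log X`.
(6) Let `0 ≤ u < v ≤ 1`. The exceptional set is finite if and only if there are only finitely many positive periodic points
and the condition in (5) is satisfied. -/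
theorem result : ∃ 𝓔 : Set ℕ, LogZero 𝓔 ∧ ∀ (d m : ℕ), 2 ≤ d → 2 ≤ m → Nat.Coprime m d →
    (m : ℝ) ≤ (d : ℝ) ^ ((d : ℝ) / ((d : ℝ) - 1)) →
    ∀ r : ℤ → ℤ, (∀ j : ℤ, 0 < j → j < (d : ℤ) → r j ≡ (m : ℤ) * j [ZMOD (d : ℤ)]) →
    ∀ q : ℕ, 1 ≤ q → ∀ α : ℝ, Irrational α →
    (∀ ε : ℝ, 0 < ε → ∃ N₀ : ℕ, ∀ N : ℕ, N₀ ≤ N → N ∉ 𝓔 → ∀ (a : ℕ) (β γ u v : ℝ), 0 ≤ u → u ≤ v → v ≤ 1 →
      ∀ σ : ℤ, (σ = 1 ∨ σ = -1) → ∀ S : Set ℤ, Invariant d m r S →
        |(count (Test q a α β γ u v) S σ N : ℝ) - (v - u) / q * count Set.univ S σ N| ≤ ε * N) ∧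
    (∀ ε : ℝ, 0 < ε → ∃ X₀ : ℕ, ∀ X : ℕ, X₀ ≤ X → ∀ (a : ℕ) (β γ u v : ℝ), 0 ≤ u → u ≤ v → v ≤ 1 →
      ∀ σ : ℤ, (σ = 1 ∨ σ = -1) → ∀ S : Set ℤ, Invariant d m r S →
        |logsum (Test q a α β γ u v) S σ X - (v - u) / q * logsum Set.univ S σ X| ≤ ε * Real.log X) ∧
    (∀ S : Set ℤ, (0 : ℤ) ∉ S → Invariant d m r S → ∀ σ : ℤ, (σ = 1 ∨ σ = -1) →
      (∃ x ∈ S, ∀ k₀ : ℕ, ∃ k, k₀ ≤ k ∧ 0 < σ * (T d m r)^[k] x) →
      ∃ δ : ℝ, 0 < δ ∧ HasDensity S σ δ ∧ ∀ ε : ℝ, 0 < ε → ∃ X₀ : ℕ, ∀ X : ℕ, X₀ ≤ X → ∀ (a : ℕ) (β γ u v : ℝ),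
        0 ≤ u → u ≤ v → v ≤ 1 →
          |logsum (Test q a α β γ u v) S σ X - (v - u) / q * δ * Real.log X| ≤ ε * Real.log X) ∧
    (∀ e ∈ E d m r, (∀ j : ℤ, 0 < j → j < (d : ℤ) → r j < e) →
      ∃ δ : ℝ, 0 < δ ∧ HasDensity (Class d m r e) 1 δ ∧ ∀ ε : ℝ, 0 < ε → ∃ X₀ : ℕ, ∀ X : ℕ, X₀ ≤ X →
        ∀ (a : ℕ) (β γ u v : ℝ), 0 ≤ u → u ≤ v → v ≤ 1 →
          |logsum (Test q a α β γ u v) (Class d m r e) 1 X - (v - u) / q * δ * Real.log X| ≤ ε * Real.log X) ∧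
    ∀ u v : ℝ, 0 ≤ u → u < v → v ≤ 1 →
      (Divergent d m r = ∅ ↔ ∀ ε : ℝ, 0 < ε → ∀ M : ℕ, ∃ X : ℕ, M ≤ X ∧ ∃ (a : ℕ) (β γ : ℝ),
        logsum (Test q a α β γ u v) (Divergent d m r) 1 X ≤ ε * Real.log X) ∧
      ((E d m r).Finite ↔ {c : ℤ | 0 < c ∧ ∃ p : ℕ, 1 ≤ p ∧ (T d m r)^[p] c = c}.Finite ∧
        ∀ ε : ℝ, 0 < ε → ∀ M : ℕ, ∃ X : ℕ, M ≤ X ∧ ∃ (a : ℕ) (β γ : ℝ),
          logsum (Test q a α β γ u v) (Divergent d m r) 1 X ≤ ε * Real.log X) := by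
  obtain ⟨𝓔, hLZ, hG⟩ := goodE
  refine ⟨𝓔, logZero_of hLZ, fun d m hd hm hc hle r hr q hq α hα => ?_⟩
  have hqR : (0 : ℝ) < q := by exact_mod_cast hq
  obtain ⟨p1, p2, p3, p4⟩ := EveryClassPositive.result d m hd hm hc hle r hr
  have hcrit : ∀ u v : ℝ, 0 ≤ u → u < v → v ≤ 1 →
      (Divergent d m r = ∅ ↔ ∀ ε : ℝ, 0 < ε → ∀ M : ℕ, ∃ X : ℕ, M ≤ X ∧ ∃ (a : ℕ) (β γ : ℝ),
        logsum (Test q a α β γ u v) (Divergent d m r) 1 X ≤ ε * Real.log X) := by
    intro u v hu huv hv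
    constructor
    · intro hD ε hε M
      refine ⟨M, le_rfl, 0, 0, 0, ?_⟩
      rw [hD]
      have : logsum (Test q 0 α 0 0 u v) ∅ 1 M = 0 := by
        unfold logsum
        simp
      rw [this]
      have := Real.log_natCast_nonneg M
      positivity
    · intro hE
      by_contra hne
      obtain ⟨n, hn⟩ := Set.nonempty_iff_ne_empty.2 hne
      obtain ⟨δ, hδ0, hδ⟩ := p3 ⟨n, hn⟩
      have hvu : 0 < v - u := by linarith
      have hc0 : 0 < (v - u) / q * δ / 4 := by positivity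
      obtain ⟨X0, h1⟩ := densS hd hm hc hle hr hLZ hG hq hα (Or.inl rfl) (divergent_inv d m r) hδ hc0
      obtain ⟨X, hX, a, β, γ, h2⟩ := hE ((v - u) / q * δ / 4) hc0 (X0 + 2)
      have h3 := (abs_le.1 (h1 X (by omega) a β γ u v hu huv.le hv)).1
      have hXp : 0 < Real.log X := Real.log_pos (by exact_mod_cast (by omega : 1 < X))
      have h4 : 0 < (v - u) / q * δ * Real.log X := by positivity
      linarith
  refine ⟨fun ε hε => unifS hd hm hc hle hr hG hq hα hε, fun ε hε => logS hd hm hc hle hr hLZ hG hq hα hε,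
    fun S h0 hS σ hσ hx => ?_, fun e he hR => ?_, fun u v hu huv hv => ⟨hcrit u v hu huv hv, ?_⟩⟩
  · obtain ⟨δ, hδ0, hδ⟩ := p1 S h0 hS σ hσ hx
    exact ⟨δ, hδ0, hδ, fun ε hε => densS hd hm hc hle hr hLZ hG hq hα hσ hS hδ hε⟩
  · obtain ⟨δ, hδ0, hδ⟩ := p2 e he hR
    exact ⟨δ, hδ0, hδ, fun ε hε => densS hd hm hc hle hr hLZ hG hq hα (Or.inl rfl) (class_inv d m r e) hδ hε⟩
  · rw [← hcrit u v hu huv hv]
    constructor
    · intro hfin
      have h1 : ¬ ({c : ℤ | 0 < c ∧ ∃ p : ℕ, 1 ≤ p ∧ (T d m r)^[p] c = c}.Infinite ∨ ∃ δ : ℝ, 0 < δ ∧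
          HasDensity {n : ℤ | Tendsto (fun k : ℕ => (T d m r)^[k] n) atTop atTop} 1 δ) := fun h => p4.2 h hfin
      push Not at h1
      refine ⟨h1.1, ?_⟩
      by_contra hne
      obtain ⟨n, hn⟩ := Set.nonempty_iff_ne_empty.2 hne
      obtain ⟨δ, hδ0, hδ⟩ := p3 ⟨n, hn⟩
      exact h1.2 δ hδ0 hδ
    · rintro ⟨h1, h2⟩
      rw [← Set.not_infinite]
      intro hinf
      rcases p4.1 hinf with h3 | ⟨δ, hδ0, hδ⟩
      · exact h3 h1
      · have h4 : HasDensity (Divergent d m r) 1 δ := hδ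
        rw [h2] at h4
        have h5 : HasDensity ∅ 1 0 := by
          unfold HasDensity
          simp
        exact hδ0.ne' (tendsto_nhds_unique h4 h5)

end Pool.Agent.Results.MP_fd8838_nt.PrimeFactors
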